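import Mathlib
import Pool.Agent.Q17.IG.Cyc
import Pool.Agent.Q17.TP.Iso

/-!
# Curves with a rational cyclic subgroup of order 4: the multiplicities of the characters of 2-power order

Let `F` be a cyclotomic field and `χ ≠ 1` a homomorphism of its Galois group to `ℂˣ` whose order is
a power of two. All elliptic curves `E` over `ℚ` with a rational cyclic subgroup of order 4 are
ordered by height. The average of `4 ^ m_χ(E)` over these curves is bounded, where `m_χ(E)` is the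
multiplicity of `χ` in `E(F) ⊗ ℂ`; so the proportion of the curves with `m_χ(E) ≥ r` is `O(4 ^ (-r))`.
The condition `Cyclic4 A B` is defined in `Pool.Agent.Q17.IG.Cyc`: there is a point `P` of order 4 of
`y² = x³ + A x + B` over the algebraic closure of `ℚ` such that `σ P = P` or `σ P = -P` for all
automorphisms `σ`.
-/

set_option autoImplicit false

namespace Pool.Agent.Results.MP_775b3b_nt.CyclicFourCharacters

open Finset Filter WeierstrassCurve TensorProduct

open Pool.Agent.Q17.IG (Cyclic4)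

/-- the curve `y² = x³ + A x + B` over `ℚ`, `c = (A, B)` -/
def E (c : ℤ × ℤ) : WeierstrassCurve ℚ := ⟨0, 0, 0, (c.1 : ℚ), (c.2 : ℚ)⟩

open Classical in
/-- The pairs `(A, B)` of integers such that `4 A³ + 27 B² ≠ 0`, there is no prime `p` with
`p⁴ ∣ A` and `p⁶ ∣ B`, the height `max (4 |A|³) (27 B²)` is at most `H`, and `y² = x³ + A x + B` has a
rational cyclic subgroup of order 4. (The bounds `|A|, |B| ≤ H` follow from the bound of the height.
Every elliptic curve over `ℚ` is isomorphic to `E (A, B)` for exactly one pair with the first two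
properties.) -/
noncomputable def Fam (H : ℕ) : Finset (ℤ × ℤ) :=
  ((Icc (-(H : ℤ)) H) ×ˢ (Icc (-(H : ℤ)) H)).filter (fun c : ℤ × ℤ =>
    4 * c.1 ^ 3 + 27 * c.2 ^ 2 ≠ 0 ∧ 4 * |c.1| ^ 3 ≤ H ∧ 27 * c.2 ^ 2 ≤ H ∧
    (∀ p : ℕ, p.Prime → ¬ ((p : ℤ) ^ 4 ∣ c.1 ∧ (p : ℤ) ^ 6 ∣ c.2)) ∧ Cyclic4 c.1 c.2)

open Classical in
/-- The subspace of the vectors `v` of `ℂ ⊗ W(F)` with `σ v = χ(σ) v` for all `σ`. -/
noncomputable def Part (F : Type) [Field F] [NumberField F] (χ : (F ≃ₐ[ℚ] F) →* ℂˣ)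
    (W : WeierstrassCurve ℚ) : Submodule ℂ (ℂ ⊗[ℤ] (W.baseChange F).toAffine.Point) where
  carrier := {v | ∀ σ : F ≃ₐ[ℚ] F, LinearMap.baseChange ℂ
    (Affine.Point.map (W' := W.toAffine) (σ : F →ₐ[ℚ] F)).toIntLinearMap v = ((χ σ : ℂˣ) : ℂ) • v}
  zero_mem' := fun σ => by rw [map_zero, smul_zero]
  add_mem' := fun {v w} hv hw σ => by rw [map_add, hv σ, hw σ, smul_add]
  smul_mem' := fun c v hv σ => by rw [map_smul, hv σ, smul_comm]

open Classical in
/-- The multiplicity of the one-dimensional representation `χ` in `W(F) ⊗ ℂ`. -/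
noncomputable def mult (F : Type) [Field F] [NumberField F] (χ : (F ≃ₐ[ℚ] F) →* ℂˣ)
    (W : WeierstrassCurve ℚ) : ℕ :=
  Module.finrank ℂ (Part F χ W)

/-! ### Proofs -/

lemma Fam_eq (H : ℕ) : Fam H = Pool.Agent.Q8.FI.F4 H := by
  classical
  unfold Fam Pool.Agent.Q8.FI.F4
  apply filter_congr
  intro c _
  refine and_congr_right fun h1 => and_congr_right fun _ => and_congr_right fun _ =>
    and_congr_right fun _ => ?_
  rw [Pool.Agent.Q17.IG.cyclic4_iff h1]
  constructor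
  · rintro ⟨e, q, h2, h3⟩
    refine ⟨e, q, ?_, ?_⟩
    · have h2' : c.1 = q ^ 2 - 3 * e ^ 2 := h2
      have h3' : c.2 = 2 * e ^ 3 - q ^ 2 * e := h3
      rw [h2', h3']
      ring
    · have h2' : c.1 = q ^ 2 - 3 * e ^ 2 := h2
      rw [h2']
      ring
  · rintro ⟨t, s, h2, h3⟩
    refine ⟨t, s, ?_, ?_⟩
    · change c.1 = s ^ 2 - 3 * t ^ 2
      linear_combination h3
    · change c.2 = 2 * t ^ 3 - s ^ 2 * t
      linear_combination h2 - t * h3

lemma card_tendsto : Tendsto (fun H : ℕ => (Fam H).card) atTop atTop := by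
  obtain ⟨c, C, hc, h⟩ := Pool.Agent.Q8.FI.order
  have h1 : Tendsto (fun H : ℕ => c * (H : ℝ) ^ ((1 : ℝ) / 3)) atTop atTop :=
    Tendsto.const_mul_atTop hc ((tendsto_rpow_atTop (by norm_num)).comp tendsto_natCast_atTop_atTop)
  have h2 : Tendsto (fun H : ℕ => ((Fam H).card : ℝ)) atTop atTop := by
    refine tendsto_atTop_mono' _ (h.mono fun H hH => ?_) h1
    change _ ≤ ((Fam H).card : ℝ)
    rw [Fam_eq]
    exact hH.1
  exact tendsto_natCast_atTop_iff.1 h2

open Classical in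
/-- **Theorem.** The number of the elliptic curves over `ℚ` with a rational cyclic subgroup of order 4
and height at most `H` tends to infinity with `H`. Let `F = ℚ(ζ_N)`, `χ : Gal(F/ℚ) → ℂˣ` a nontrivial
homomorphism with `χ ^ (2 ^ k)` trivial for some `k`. There is a constant `C` such that for all `H`:
the sum of `4 ^ m_χ(E)` over the curves of height at most `H` is at most `C` times their number, and
for all `r` the number of the curves with `m_χ(E) ≥ r` is at most `C / 4 ^ r` times the number of the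
curves. -/
theorem result : Tendsto (fun H : ℕ => (Fam H).card) atTop atTop ∧
    ∀ (N : ℕ) [NeZero N] (F : Type) [Field F] [NumberField F] [IsCyclotomicExtension {N} ℚ F]
    (χ : (F ≃ₐ[ℚ] F) →* ℂˣ), (∃ σ, χ σ ≠ 1) → ∀ k : ℕ, (∀ σ, χ σ ^ (2 ^ k) = 1) →
    ∃ C : ℝ, ∀ H : ℕ,
      ∑ c ∈ Fam H, (4 : ℝ) ^ mult F χ (E c) ≤ C * (Fam H).card ∧
      ∀ r : ℕ, (((Fam H).filter (fun c => r ≤ mult F χ (E c))).card : ℝ) ≤
        C / 4 ^ r * (Fam H).card := by
  refine ⟨card_tendsto, ?_⟩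
  intro N _ F _ _ _ χ hχ k hk
  have hex : ∃ k : ℕ, ∀ σ, χ σ ^ (2 ^ k) = 1 := ⟨k, hk⟩
  obtain ⟨b, hb⟩ : ∃ b, b = Nat.find hex := ⟨_, rfl⟩
  have h1 := Nat.find_spec hex
  rw [← hb] at h1
  have h3 : ∃ C : ℝ, ∀ H : ℕ, ∑ c ∈ Fam H, (4 : ℝ) ^ mult F χ (E c) ≤ C * (Fam H).card := by
    rcases b with _ | a
    · obtain ⟨σ, hσ⟩ := hχ
      exact absurd (by simpa using h1 σ) hσ
    · have h2 : ∃ σ, χ σ ^ (2 ^ a) ≠ 1 := by
        by_contra hcon
        push Not at hcon
        have := Nat.find_min' hex hcon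
        omega
      simp only [Fam_eq]
      exact Pool.Agent.Q17.TP.avg_char4 N χ a h1 h2
  obtain ⟨C, hC⟩ := h3
  refine ⟨C, fun H => ⟨hC H, fun r => ?_⟩⟩
  have h2 : (((Fam H).filter (fun c => r ≤ mult F χ (E c))).card : ℝ) * 4 ^ r ≤
      ∑ c ∈ Fam H, (4 : ℝ) ^ mult F χ (E c) := by
    calc (((Fam H).filter (fun c => r ≤ mult F χ (E c))).card : ℝ) * 4 ^ r
        = ∑ _c ∈ (Fam H).filter (fun c => r ≤ mult F χ (E c)), (4 : ℝ) ^ r := by
          rw [sum_const, nsmul_eq_mul]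
      _ ≤ ∑ c ∈ (Fam H).filter (fun c => r ≤ mult F χ (E c)), (4 : ℝ) ^ mult F χ (E c) := by
          refine sum_le_sum fun c hc => ?_
          exact pow_le_pow_right₀ (by norm_num) (mem_filter.1 hc).2
      _ ≤ _ := sum_le_sum_of_subset_of_nonneg (filter_subset _ _) fun c _ _ => by positivity
  have h4 : (0 : ℝ) < (4 : ℝ) ^ r := by positivity
  have h5 := h2.trans (hC H)
  rw [div_mul_eq_mul_div, le_div_iff₀ h4]
  exact h5

end Pool.Agent.Results.MP_775b3b_nt.CyclicFourCharacters
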