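import Pool.Agent.Q235.FE.Art

/-!
# The truncated multiplicities of an Artin representation in curves whose coefficients have few changed digits

Let `F/ℚ` be a finite Galois extension, `ρ` a representation of its group and `E : y² = X³ + A X + B` an elliptic curve
over `ℚ`.  In the form of the original conjecture of Birch and Swinnerton-Dyer, the multiplicity `m_ρ(E)` of (an
irreducible) `ρ` in `E(F) ⊗ ℂ` should be the limit for `x → ∞` of the exponents

  `m_ρ(E, x) = log (∏_{p ≤ x} |det (1 - (a_p / p) ρ(Frob_p) + (1 / p) ρ(Frob_p)²)|) / log log x`.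

Let `ν(ρ)` be the mean value of `tr ρ(g²)` (`0, 1, -1` for unitary, orthogonal and symplectic irreducible `ρ`).  In the
library it is known that `m_ρ(E, x) = ν(ρ)/2 + o(1)` up to a small power of the height for almost all curves, ordered by
height.  Here we prove this for very sparse sets of curves:

1. `A`, `B` arise from two ARBITRARY integers by changing a few digits and possibly the sign;
2. `A` is ANY integer, and only `B` arises from an arbitrary integer by changing a few digits; then the error contains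
  the additional term `n (∑_{p ∣ A, p ≤ x} 1/p) / log log x`, `n` the degree of `ρ`.

This holds for almost all choices of the positions, for all `x` with `X₀ ≤ x ≤ exp (c √r)`, `r` the (smaller) number of
changed digits.  See `Pool.Agent.Q235.FE`.
-/

set_option autoImplicit false

namespace Pool.Agent.Results.MP_775b3b_nt.FewDigitMultiplicities

open scoped Classical
open Finset NumberField
open Pool.Agent.Q235.FD (Setting exceptions digit)
open Pool.Agent.Q235.FE (bad bad_mono exceptions_mono)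

/-- `a_p`, the number `p` minus the number of affine points of `y² = x³ + A x + B` modulo `p`. -/
noncomputable def trace (A B : ℤ) (p : ℕ) : ℝ :=
  (p : ℝ) - Nat.card {q : ZMod p × ZMod p // q.2 ^ 2 = q.1 ^ 3 + (A : ZMod p) * q.1 + (B : ZMod p)}

/-- `p` is a prime which does not divide `2 Δ`, `Δ = -4 A³ - 27 B²`. -/
def Good (A B : ℤ) (p : ℕ) : Prop := p.Prime ∧ ¬ ((p : ℤ) ∣ 2 * (-4 * A ^ 3 - 27 * B ^ 2))

/-- `g` is a Frobenius element at the prime `p`: for a homomorphism `φ` from the ring of integers to an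
algebraic closure of `𝔽_p` (i.e. for a prime ideal above `p`), `φ (g x) = φ(x)^p`. -/
def IsFrobenius {F : Type} [Field F] [NumberField F] (p : ℕ) (g : Gal(F/ℚ)) : Prop :=
  ∃ (_ : Fact p.Prime) (φ : 𝓞 F →+* AlgebraicClosure (ZMod p)), ∀ x : 𝓞 F, φ (g • x) = φ x ^ p

/-- The local factor `det (1 - (a_p / p) ρ(g) + (1 / p) ρ(g)²)`, the value at `s = 1`. -/
noncomputable def factor {F : Type} [Field F] [NumberField F] {n : ℕ} (ρ : Gal(F/ℚ) →* Matrix (Fin n) (Fin n) ℂ)
    (A B : ℤ) (p : ℕ) (g : Gal(F/ℚ)) : ℂ :=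
  (1 - ((trace A B p / p : ℝ) : ℂ) • ρ g + ((1 / (p : ℝ) : ℝ) : ℂ) • ρ g ^ 2).det

/-- The product over the good primes `25 ≤ p ≤ x` not in `S`; `σ p` a Frobenius element. -/
noncomputable def product {F : Type} [Field F] [NumberField F] {n : ℕ} (ρ : Gal(F/ℚ) →* Matrix (Fin n) (Fin n) ℂ)
    (σ : ℕ → Gal(F/ℚ)) (S : Finset ℕ) (A B : ℤ) (x : ℕ) : ℝ :=
  ∏ p ∈ (range (x + 1)).filter (fun p => Good A B p ∧ 25 ≤ p ∧ p ∉ S), ‖factor ρ A B p (σ p)‖

/-- The exponent `m` for which the product up to `x` is `(log x) ^ m`. -/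
noncomputable def multiplicityAt {F : Type} [Field F] [NumberField F] {n : ℕ}
    (ρ : Gal(F/ℚ) →* Matrix (Fin n) (Fin n) ℂ) (σ : ℕ → Gal(F/ℚ)) (S : Finset ℕ) (A B : ℤ) (x : ℕ) : ℝ :=
  Real.log (product ρ σ S A B x) / Real.log (Real.log x)

/-- The indicator of Frobenius and Schur, the mean value of `tr ρ(g²)` (a real number; we take the real
part). -/
noncomputable def indicator {F : Type} [Field F] [NumberField F] {n : ℕ}
    (ρ : Gal(F/ℚ) →* Matrix (Fin n) (Fin n) ℂ) : ℝ :=
  (∑ g : Gal(F/ℚ), (ρ (g ^ 2)).trace.re) / Nat.card Gal(F/ℚ)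

/-- The sum of the reciprocals of the prime divisors `p ≤ x` of `A` (of all primes `p ≤ x`, if `A = 0`). -/
noncomputable def divisorSum (A : ℤ) (x : ℕ) : ℝ :=
  ∑ p ∈ (range (x + 1)).filter (fun p : ℕ => p.Prime ∧ (p : ℤ) ∣ A), 1 / (p : ℝ)

lemma mult_bound {F : Type} [Field F] [NumberField F] [IsGalois ℚ F] {n : ℕ}
    (ρ : Gal(F/ℚ) →* Matrix (Fin n) (Fin n) ℂ) (σ : ℕ → Gal(F/ℚ)) (S : Finset ℕ) {A B : ℤ} {x : ℕ} (hx : 16 ≤ x) {ε w : ℝ}
    (h : |∑ p ∈ (range (x + 1)).filter Nat.Prime, Pool.Agent.Q28.BP.twf (S ∪ range 25) (fun p => ρ (σ p)) A B p -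
        Pool.Agent.Q28.BP.fs ρ / 2 * Real.log (Real.log x)| ≤ ε * Real.log (Real.log x) + w) :
    |multiplicityAt ρ σ S A B x - indicator ρ / 2| ≤ ε + w / Real.log (Real.log x) := by
  have hl : 0 < Real.log (Real.log x) := by
    have := Pool.Agent.Q28.BP.loglog_ge_one hx
    linarith
  have hm : Nat.card Gal(F/ℚ) ≠ 0 := Nat.card_pos.ne'
  have h1 : Real.log (product ρ σ S A B x) = ∑ p ∈ (range (x + 1)).filter Nat.Prime,
      Pool.Agent.Q28.BP.twf (S ∪ range 25) (fun p => ρ (σ p)) A B p := by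
    unfold product
    rw [Real.log_prod]
    · rw [sum_filter, sum_filter]
      refine sum_congr rfl fun p _ => ?_
      unfold Pool.Agent.Q28.BP.twf
      by_cases hg : Good A B p ∧ 25 ≤ p ∧ p ∉ S
      · have hpS : p ∉ S ∪ range 25 := by
          rw [mem_union, mem_range, not_or]
          exact ⟨hg.2.2, by omega⟩
        rw [if_pos hg, if_pos hg.1.1, if_pos ⟨hg.1, hpS⟩]
        rfl
      · rw [if_neg hg]
        by_cases hp : p.Prime
        · rw [if_pos hp, if_neg]
          rintro ⟨h2, h3⟩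
          rw [mem_union, mem_range, not_or] at h3
          exact hg ⟨h2, by omega, h3.1⟩
        · rw [if_neg hp]
    · intro p hp
      obtain ⟨_, hg, h25, _⟩ := mem_filter.1 hp
      have hH := Pool.Agent.W263.BSD.hasse hg (by omega)
      exact (Pool.Agent.Q28.BP.local_factor (ρ (σ p)) hm (by rw [← map_pow, pow_card_eq_one', map_one])
        (by exact_mod_cast h25) hH).1.ne'
  have h2 : multiplicityAt ρ σ S A B x - indicator ρ / 2 =
      (∑ p ∈ (range (x + 1)).filter Nat.Prime, Pool.Agent.Q28.BP.twf (S ∪ range 25) (fun p => ρ (σ p)) A B p -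
        Pool.Agent.Q28.BP.fs ρ / 2 * Real.log (Real.log x)) / Real.log (Real.log x) := by
    unfold multiplicityAt
    rw [h1, sub_div, mul_div_assoc, div_self hl.ne', mul_one]
    rfl
  rw [h2, abs_div, abs_of_pos hl, div_le_iff₀ hl, add_mul, div_mul_cancel₀ _ hl.ne']
  exact h

/-- **Truncated multiplicities.**  Let `β ≥ 2` be a base, `F/ℚ` a finite Galois extension and `n` a natural number.
There is `c > 0` such that for every representation `ρ` of degree `n` of the Galois group, every finite set `S` of primes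
such that `σ p` is a Frobenius element at `p` for all primes `p ∉ S`, and all `ε, η > 0` there is `X₀` such that

1. for all integers `N 0`, `N 1` with at most `K 0`, `K 1` digits in base `β`, all `r l ≤ K l / 2`, all prescribed new
  digits and all signs `s`, `t` the following holds for all choices of `r l` positions in `N l`, `l = 0, 1`, except for a
  proportion of at most `η`: for the numbers `m 0`, `m 1` obtained and all `x ≥ X₀` with `log x ≤ c √(r l)`, `l = 0, 1`,
  the curve `E : y² = X³ + s (m 0) X + t (m 1)` satisfies `|m_ρ(E, x) - ν(ρ)/2| ≤ ε`;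
2. for all integers `A`, all integers `N` with at most `K` digits, all `r ≤ K / 2`, all prescribed new digits and all
  signs `t` the following holds for all choices of `r` positions in `N`, except for a proportion of at most `η`: for the
  number `m` obtained and all `x ≥ X₀` with `log x ≤ c √r` the curve `E : y² = X³ + A X + t m` satisfies
  `|m_ρ(E, x) - ν(ρ)/2| ≤ ε + n (∑_{p ∣ A, p ≤ x} 1/p) / log log x`. -/
theorem result (β : ℕ) (hβ : 2 ≤ β) (F : Type) [Field F] [NumberField F] [IsGalois ℚ F] (n : ℕ) : ∃ c : ℝ, 0 < c ∧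
    ∀ (ρ : Gal(F/ℚ) →* Matrix (Fin n) (Fin n) ℂ) (σ : ℕ → Gal(F/ℚ)) (S : Finset ℕ),
    (∀ p : ℕ, p.Prime → p ∉ S → IsFrobenius p (σ p)) → ∀ ε η : ℝ, 0 < ε → 0 < η → ∃ X₀ : ℕ, 16 ≤ X₀ ∧
    (∀ s t : ℤ, (s = 1 ∨ s = -1) → (t = 1 ∨ t = -1) → ∀ (K r N : Fin 2 → ℕ) (f : Fin 2 → ℕ → ℕ), Setting β K r N f →
      (exceptions β K r N f (fun m => ∀ x : ℕ, X₀ ≤ x → (∀ l, Real.log x ≤ c * Real.sqrt (r l)) →
        |multiplicityAt ρ σ S (s * (m 0 : ℤ)) (t * (m 1 : ℤ)) x - indicator ρ / 2| ≤ ε) : ℝ) ≤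
          η * ∏ l, ((K l).choose (r l) : ℝ)) ∧
    (∀ A t : ℤ, (t = 1 ∨ t = -1) → ∀ (K r N : ℕ) (f : ℕ → ℕ), 2 * r ≤ K → N < β ^ K →
      (∀ j, f j < β ∧ f j ≠ digit β j N) →
      (bad β K r N f (fun m => ∀ x : ℕ, X₀ ≤ x → Real.log x ≤ c * Real.sqrt r →
        |multiplicityAt ρ σ S A (t * (m : ℤ)) x - indicator ρ / 2| ≤
          ε + n * divisorSum A x / Real.log (Real.log x)) : ℝ) ≤ η * (K.choose r : ℝ)) := by
  obtain ⟨c₁, hc₁, H1⟩ := Pool.Agent.Q235.FE.artin_two (L := F) (n := n) β hβ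
  obtain ⟨c₂, hc₂, H2⟩ := Pool.Agent.Q235.FE.artin_fixed (L := F) (n := n) β hβ
  refine ⟨min c₁ c₂, lt_min hc₁ hc₂, fun ρ σ S hσ ε η hε hη => ?_⟩
  have hσ' : ∀ p : ℕ, p.Prime → p ∉ S ∪ range 25 → Pool.Agent.Q28.BP.FrobAt F p (σ p) := fun p hp hpS =>
    hσ p hp fun h => hpS (mem_union_left _ h)
  have hS25 : ∀ p < 25, p ∈ S ∪ range 25 := fun p hp => mem_union_right _ (mem_range.2 hp)
  obtain ⟨X₁, h1, H1⟩ := H1 ρ σ (S ∪ range 25) hσ' hS25 ε η hε hη
  obtain ⟨X₂, h2, H2⟩ := H2 ρ σ (S ∪ range 25) hσ' hS25 ε η hε hη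
  refine ⟨max X₁ X₂, h1.trans (le_max_left _ _), ?_, ?_⟩
  · intro s t hs ht K r N f hset
    refine le_trans (Nat.cast_le.2 (exceptions_mono β K r N f (fun m hm x hx hxr => ?_))) (H1 s t hs ht K r N f hset)
    have h3 := hm x ((le_max_left _ _).trans hx) (fun l => (hxr l).trans
      (mul_le_mul_of_nonneg_right (min_le_left _ _) (Real.sqrt_nonneg _)))
    have h4 := mult_bound ρ σ S (h1.trans ((le_max_left _ _).trans hx)) (w := 0) (by rw [add_zero]; exact h3)
    rwa [zero_div, add_zero] at h4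
  · intro A t ht K r N f hrK hN hf
    refine le_trans (Nat.cast_le.2 (bad_mono β K r N f (fun m hm x hx hxr => ?_))) (H2 A t ht K r N f hrK hN hf)
    have h3 := hm x ((le_max_right _ _).trans hx) (hxr.trans
      (mul_le_mul_of_nonneg_right (min_le_right _ _) (Real.sqrt_nonneg _)))
    have e : Pool.Agent.Q28.BP.wt A x = divisorSum A x := by
      unfold Pool.Agent.Q28.BP.wt divisorSum
      rw [← sum_filter, filter_filter]
    rw [e] at h3
    exact mult_bound ρ σ S (h1.trans ((le_max_left _ _).trans hx)) h3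

end Pool.Agent.Results.MP_775b3b_nt.FewDigitMultiplicities
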