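import Mathlib
import Pool.Agent.W307.AT.Main
import Pool.Agent.W307.RT.Tors
import Pool.Agent.Q17.BF.One
import Pool.Agent.Q17.FT.Uni

/-!
# The tails of the multiplicities of all the quadratic characters

All elliptic curves `E` over `ℚ` with full rational 2-torsion are ordered by height. There is one
set `Z` of curves of density zero such that for every `k` there is `C` with the following property:
for ALL finite Galois extensions `F` of `ℚ` and all homomorphisms `χ : Gal(F/ℚ) → {±1}`, the average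
of `2 ^ (k m_χ(E))` over the curves outside of `Z` is at most `C (2 * 8 ^ k) ^ ω(D)`, where `m_χ(E)`
is the multiplicity of `χ` in `E(F) ⊗ ℂ` and `ℚ(√D)` the field of `χ`. The upper density of the
curves with `m_χ(E) ≥ r` decays faster than any exponential `B ^ (-r)`.
-/

set_option autoImplicit false

namespace Pool.Agent.Results.MP_775b3b_nt.QuadraticCharacterTails

open Finset Filter WeierstrassCurve Topology

/-- the curve `y² = x³ + A x + B` over `ℚ` -/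
def E (A B : ℤ) : WeierstrassCurve ℚ := ⟨0, 0, 0, (A : ℚ), (B : ℚ)⟩

open Classical in
/-- The pairs `(A, B)` of integers such that `4 A³ + 27 B² ≠ 0`, there is no prime `p` with
`p⁴ ∣ A` and `p⁶ ∣ B`, the height `max (4 |A|³) (27 B²)` is at most `H`, and `Z/2 x Z/2` embeds in
the group of the rational points of `y² = x³ + A x + B`. (The bounds `|A|, |B| ≤ H` follow from the
bound of the height. Every elliptic curve over `ℚ` is isomorphic to `E A B` for exactly one pair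
with the first two properties.) -/
noncomputable def Fam (H : ℕ) : Finset (ℤ × ℤ) :=
  ((Icc (-(H : ℤ)) H) ×ˢ (Icc (-(H : ℤ)) H)).filter (fun c : ℤ × ℤ =>
    4 * c.1 ^ 3 + 27 * c.2 ^ 2 ≠ 0 ∧ 4 * |c.1| ^ 3 ≤ H ∧ 27 * c.2 ^ 2 ≤ H ∧
    (∀ p : ℕ, p.Prime → ¬ ((p : ℤ) ^ 4 ∣ c.1 ∧ (p : ℤ) ^ 6 ∣ c.2)) ∧
    ∃ f : ZMod 2 × ZMod 2 →+ (E c.1 c.2).toAffine.Point, Function.Injective f)

/-- the proportion of the curves of `S` among the curves of height at most `H` -/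
noncomputable def proportion (S : Set (ℤ × ℤ)) (H : ℕ) : ℝ :=
  (((Fam H : Set (ℤ × ℤ)) ∩ S).ncard : ℝ) / ((Fam H).card : ℝ)

/-- the upper density of a set of curves -/
noncomputable def upperDensity (S : Set (ℤ × ℤ)) : ℝ := limsup (proportion S) atTop

open Classical in
/-- The group of the points `P` of `W` over `F` with `σ P = χ(σ) P` for all `σ`. -/
noncomputable def Part (F : Type) [Field F] [NumberField F] (χ : (F ≃ₐ[ℚ] F) →* ℤˣ)
    (W : WeierstrassCurve ℚ) : AddSubgroup (W.baseChange F).toAffine.Point where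
  carrier := {P | ∀ σ : F ≃ₐ[ℚ] F, Affine.Point.map (W' := W.toAffine) (σ : F →ₐ[ℚ] F) P =
    ((χ σ : ℤˣ) : ℤ) • P}
  zero_mem' := fun σ => by rw [map_zero, smul_zero]
  add_mem' := fun {P Q} hP hQ σ => by rw [map_add, hP σ, hQ σ, smul_add]
  neg_mem' := fun {P} hP σ => by rw [map_neg, hP σ, smul_neg]

open Classical in
/-- The multiplicity of `χ` in `W(F) ⊗ ℂ`: the rank of `Part F χ W`. -/
noncomputable def mult (F : Type) [Field F] [NumberField F] (χ : (F ≃ₐ[ℚ] F) →* ℤˣ)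
    (W : WeierstrassCurve ℚ) : ℕ :=
  Module.finrank ℤ (Part F χ W)

/-- `χ` is the character of the field `ℚ(√D)` -/
def IsCharOf (D : ℤ) (F : Type) [Field F] [NumberField F] (χ : (F ≃ₐ[ℚ] F) →* ℤˣ) : Prop :=
  Squarefree D ∧ ∃ s : F, s ^ 2 = (D : F) ∧ ∀ σ : F ≃ₐ[ℚ] F, σ s = (((χ σ : ℤˣ) : ℤ) : F) * s

/-! ### Proofs -/

open Pool.Agent.W307.SE (Sel SelR)
open Pool.Agent.W307.RT (Sh)
open Pool.Agent.TH344.GT (EXC)

lemma Fam_eq : Fam = Pool.Agent.W307.RT.Cv 2 := by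
  classical
  funext H
  unfold Fam Pool.Agent.W307.RT.Cv
  apply filter_congr
  intro c _
  have h : Pool.Agent.W307.RT.HasT 2 (Pool.Agent.W307.RT.Sh c.1 c.2) ↔
      ∃ f : ZMod 2 × ZMod 2 →+ (E c.1 c.2).toAffine.Point, Function.Injective f :=
    Pool.Agent.W307.RT.tors_iff
  rw [h]

/-- one curve and one character -/
lemma one_char {F : Type} [Field F] [NumberField F] [IsGalois ℚ F] {χ : (F ≃ₐ[ℚ] F) →* ℤˣ}
    {D : ℤ} (hD : IsCharOf D F χ) {A B e1 e2 e3 M N : ℤ} (h0 : 4 * A ^ 3 + 27 * B ^ 2 ≠ 0)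
    (he : ∀ x : ℤ, x ^ 3 + A * x + B = (x - e1) * (x - e2) * (x - e3))
    (h12 : e2 - e1 = M) (h13 : e3 - e1 = N) (hM : M ≠ 0) (hN : N ≠ 0) (hMN : M ≠ N) :
    2 ^ mult F χ (E A B) ≤ (Sel (D * M) (D * N)).ncard := by
  classical
  obtain ⟨hsq, s, hs, hσ⟩ := hD
  have hD0 : D ≠ 0 := hsq.ne_zero
  obtain ⟨φ, hφ⟩ := Pool.Agent.W605.AT.dsc F χ D s hD0 hs hσ A B
  obtain ⟨h1, h2⟩ := Pool.Agent.Q17.BF.selR_tw (w := 1) one_ne_zero h0 he (by rw [h12]; ring)
    (by rw [h13]; ring) hM hN hMN hD0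
  have hdisc := Pool.Agent.TH639.SL.disc_tw hD0 h0
  have hroots := Pool.Agent.TH639.SL.roots_tw he D
  have hrk := Pool.Agent.W402.FK.rks (D ^ 2 * A) (D ^ 3 * B) _ _ _ hdisc hroots h1
  have hfin : Module.Finite ℤ (Sh (D ^ 2 * A) (D ^ 3 * B)).toAffine.Point :=
    Pool.Agent.W307.RG.fin_tw h0 he hD0
  have h3 : mult F χ (E A B) ≤
      Module.finrank ℤ (Sh (D ^ 2 * A) (D ^ 3 * B)).toAffine.Point :=
    LinearMap.finrank_le_finrank_of_injective (f := φ.toIntLinearMap) hφ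
  exact (Nat.pow_le_pow_right (by norm_num) h3).trans (hrk.trans h2)

open Classical in
/-- **Theorem.** The number of the elliptic curves over `ℚ` of height at most `H` with full rational
2-torsion tends to infinity with `H`. There is a set `Z` of these curves of density zero such that for
every `k` there is `C` such that for all finite Galois extensions `F` of `ℚ`, all homomorphisms
`χ : Gal(F/ℚ) → {±1}` and all `H`, if `χ` is the character of `ℚ(√D)`, `D` squarefree (there is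
exactly one such `D`) and `M = C (2 * 8 ^ k) ^ ω(D)`, the sum of `(2 ^ m_χ(E)) ^ k` over the
curves of height at most `H` outside of `Z` is at most `M` times the number of the curves of height
at most `H`, and at most `M / 2 ^ (k r)` times this number of the curves outside of `Z` have
`m_χ(E) ≥ r`. For all `F`, `χ` and `B` the upper density of the curves with `m_χ(E) ≥ r`, times
`B ^ r`, tends to zero for `r → ∞`. -/
theorem result :
    Tendsto (fun H : ℕ => (Fam H).card) atTop atTop ∧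
    (∀ (F : Type) [Field F] [NumberField F] [IsGalois ℚ F] (χ : (F ≃ₐ[ℚ] F) →* ℤˣ),
      ∃ D : ℤ, IsCharOf D F χ) ∧
    (∃ Z : Set (ℤ × ℤ), Tendsto (proportion Z) atTop (𝓝 0) ∧ ∀ k : ℕ, ∃ C : ℝ,
      ∀ (F : Type) [Field F] [NumberField F] [IsGalois ℚ F] (χ : (F ≃ₐ[ℚ] F) →* ℤˣ) (D : ℤ),
      IsCharOf D F χ → ∀ H : ℕ,
        ∑ c ∈ (Fam H).filter (fun c => c ∉ Z), ((2 : ℝ) ^ mult F χ (E c.1 c.2)) ^ k ≤
          C * (2 * 8 ^ k) ^ D.natAbs.primeFactors.card * (Fam H).card ∧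
        ∀ r : ℕ, (((Fam H).filter (fun c => c ∉ Z ∧ r ≤ mult F χ (E c.1 c.2))).card : ℝ) ≤
          C * (2 * 8 ^ k) ^ D.natAbs.primeFactors.card * (Fam H).card / 2 ^ (k * r)) ∧
    ∀ (F : Type) [Field F] [NumberField F] [IsGalois ℚ F] (χ : (F ≃ₐ[ℚ] F) →* ℤˣ) (B : ℝ),
      Tendsto (fun r : ℕ => B ^ r * upperDensity {c | r ≤ mult F χ (E c.1 c.2)}) atTop (𝓝 0) := by
  have hchi : ∀ (F : Type) [Field F] [NumberField F] [IsGalois ℚ F] (χ : (F ≃ₐ[ℚ] F) →* ℤˣ),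
      ∃ D : ℤ, IsCharOf D F χ := by
    intro F _ _ _ χ
    obtain ⟨D, s, hD, hs, hσ⟩ := Pool.Agent.W683.AT.chi F χ
    exact ⟨D, hD, s, hs, hσ⟩
  obtain ⟨G, hG, Z, hZ1, hZ2⟩ := Pool.Agent.Q17.FT.unif
  rw [← Fam_eq] at hG hZ1 hZ2
  have hZd : ∀ ε : ℝ, 0 < ε → ∃ H0 : ℕ, ∀ H, H0 ≤ H →
      (((Fam H).filter (fun c => c ∈ Z)).card : ℝ) ≤ ε * (Fam H).card := by
    intro ε hε
    obtain ⟨H0, h⟩ := hZ1 ε hε
    refine ⟨H0, fun H hH => ?_⟩
    have e0 : ((Fam H : Set (ℤ × ℤ)) ∩ Z) =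
      (((Fam H).filter (fun c => c ∈ Z) : Finset (ℤ × ℤ)) : Set (ℤ × ℤ)) := by
      ext c
      simp
    have h1 := h H hH
    rw [e0, Set.ncard_coe_finset] at h1
    exact h1
  have one : ∀ (H : ℕ) (c : ℤ × ℤ), c ∈ Fam H → ∀ (F : Type) [Field F] [NumberField F]
      [IsGalois ℚ F] (χ : (F ≃ₐ[ℚ] F) →* ℤˣ) (D : ℤ), IsCharOf D F χ →
      2 ^ mult F χ (E c.1 c.2) ≤ (Sel (D * (G c).1) (D * (G c).2)).ncard := by
    intro H c hc F _ _ _ χ D hD
    obtain ⟨h1, h2, h3, h4, e1, e2, e3, hr, h5, h6⟩ := hG H c hc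
    exact one_char hD h1 hr h5 h6 h2 h3 h4
  have hsum : ∀ k : ℕ, ∃ C : ℝ, ∀ (F : Type) [Field F] [NumberField F] [IsGalois ℚ F]
      (χ : (F ≃ₐ[ℚ] F) →* ℤˣ) (D : ℤ), IsCharOf D F χ → ∀ H : ℕ,
        ∑ c ∈ (Fam H).filter (fun c => c ∉ Z), ((2 : ℝ) ^ mult F χ (E c.1 c.2)) ^ k ≤
          C * (2 * 8 ^ k) ^ D.natAbs.primeFactors.card * (Fam H).card := by
    intro k
    obtain ⟨C, -, hC⟩ := hZ2 k
    refine ⟨C, fun F _ _ _ χ D hD H => ?_⟩
    refine le_trans (sum_le_sum fun c hc => ?_) (hC D hD.1.ne_zero H _ (filter_subset _ _)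
      fun c hc => (mem_filter.1 hc).2)
    have h1 := one H c (mem_filter.1 hc).1 F χ D hD
    have h2 : (2 : ℝ) ^ mult F χ (E c.1 c.2) ≤ ((Sel (D * (G c).1) (D * (G c).2)).ncard : ℝ) := by
      exact_mod_cast h1
    exact pow_le_pow_left₀ (by positivity) h2 k
  refine ⟨?_, hchi, ⟨Z, Pool.Agent.TH344.GT.tendsto_of_eps Fam ?_, fun k => ?_⟩, ?_⟩
  · rw [Fam_eq]
    exact Pool.Agent.W307.RT.tendsto_of_low Pool.Agent.W672.FK.lowf
  · intro ε hε
    obtain ⟨X0, h⟩ := hZd ε hε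
    exact ⟨X0, h⟩
  · obtain ⟨C, hC⟩ := hsum k
    refine ⟨C, fun F _ _ _ χ D hD H => ⟨hC F χ D hD H, fun r => ?_⟩⟩
    rw [le_div_iff₀ (by positivity)]
    refine le_trans ?_ (hC F χ D hD H)
    have h1 : ∀ c ∈ (Fam H).filter (fun c => c ∉ Z ∧ r ≤ mult F χ (E c.1 c.2)),
        (2 : ℝ) ^ (k * r) ≤ ((2 : ℝ) ^ mult F χ (E c.1 c.2)) ^ k := by
      intro c hc
      rw [← pow_mul, mul_comm k r]
      exact pow_le_pow_right₀ (by norm_num) (Nat.mul_le_mul_right k (mem_filter.1 hc).2.2)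
    calc (((Fam H).filter (fun c => c ∉ Z ∧ r ≤ mult F χ (E c.1 c.2))).card : ℝ) * 2 ^ (k * r)
        = ∑ _c ∈ (Fam H).filter (fun c => c ∉ Z ∧ r ≤ mult F χ (E c.1 c.2)),
          (2 : ℝ) ^ (k * r) := by rw [sum_const, nsmul_eq_mul]
      _ ≤ ∑ c ∈ (Fam H).filter (fun c => c ∉ Z ∧ r ≤ mult F χ (E c.1 c.2)),
          ((2 : ℝ) ^ mult F χ (E c.1 c.2)) ^ k := sum_le_sum h1
      _ ≤ _ := by
          apply sum_le_sum_of_subset_of_nonneg
          · intro c hc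
            rw [mem_filter] at hc ⊢
            exact ⟨hc.1, hc.2.1⟩
          · intro c _ _
            positivity
  · intro F _ _ _ χ B
    obtain ⟨D, hD⟩ := hchi F χ
    have hexc : EXC Fam (fun c => (Sel (D * (G c).1) (D * (G c).2)).ncard) := by
      refine ⟨Z, fun ε hε => ?_, fun k => ?_⟩
      · obtain ⟨X0, h⟩ := hZd ε hε
        exact ⟨X0, fun X hX => le_trans (le_of_eq (by congr)) (h X hX)⟩
      · obtain ⟨C, -, hC⟩ := hZ2 k
        exact ⟨C * (2 * 8 ^ k) ^ D.natAbs.primeFactors.card,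
          fun X => hC D hD.1.ne_zero X _ (filter_subset _ _) fun c hc => (mem_filter.1 hc).2⟩
    refine Pool.Agent.TH344.GT.tail Fam hexc 1
      (S := fun r => {c | r ≤ mult F χ (E c.1 c.2)}) (fun r H c hc hr => ?_) B
    rw [pow_one]
    exact (Nat.pow_le_pow_right (by norm_num) hr).trans (one H c hc F χ D hD)

end Pool.Agent.Results.MP_775b3b_nt.QuadraticCharacterTails
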