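import Pool.Agent.Q28.BP.ArtinE

/-!
# The truncated multiplicities of an Artin representation in almost all elliptic curves

Let `F/ℚ` be a finite Galois extension, `ρ` a representation of its group and `E = E_{A,B}` an elliptic
curve over `ℚ`.  The multiplicity `m_ρ(E)` of (an irreducible) `ρ` in `E(F) ⊗ ℂ` should be the order at
`s = 1` of the twisted `L`-function `L(E, ρ, s)`, whose local factors are
`det (1 - (a_p p^{-s}) ρ(Frob_p) + p^{1-2s} ρ(Frob_p)²)⁻¹`; in the form of the original conjecture of Birch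
and Swinnerton-Dyer, `m_ρ(E)` should be the limit for `x → ∞` of the exponents

  `m_ρ(E, x) = log (∏_{p ≤ x} |det (1 - (a_p / p) ρ(Frob_p) + (1 / p) ρ(Frob_p)²)|) / log log x`.

The problem says: for `100 %` of `E` the multiplicity `m_ρ(E)` is `0` if `ρ` is not self-dual, and `0` or `1`
according to the root number `w_E(ρ) = 1`, `-1` if `ρ` is self-dual.  (So on the average it should be `0` if
`ρ` is unitary, and `1/2` if `ρ` is orthogonal and the root number equidistributed; if `ρ` is symplectic,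
`E ⊗ ρ` is orthogonal.)  We prove unconditionally the truncated form: let `ν(ρ)` be the mean value of
`tr ρ(g²)`, the indicator of Frobenius and Schur, `= 0, 1, -1` for unitary, orthogonal and symplectic
irreducible `ρ`.  Then for `100 %` of `E`, ordered by height,

  `m_ρ(E, x) = ν(ρ)/2 + o(1)` simultaneously for all `x` between a constant and `(X/27)^(1/20)`,

and the same holds in the mean over the curves.  So in this range `m_ρ(E, x)` is near to `0`, as it should be
by the problem, for almost all `E` if `ρ` is unitary, and near to the conjectural average `1/2` of `m_ρ(E)`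
if `ρ` is orthogonal (e.g. `ρ = 1`: the rank).

The proof: fourth moments in `B`, uniformly in all intervals of primes, a maximal inequality, the second
moment of `a_p` over the curves modulo `p`, and Chebotarev's theorem.
-/

set_option autoImplicit false

namespace Pool.Agent.Results.MP_775b3b_nt.TruncatedMultiplicities

open scoped Classical
open Finset NumberField

/-- The family of the problem: nonsingular, no prime `p` satisfies `p⁴ ∣ A` and `p⁶ ∣ B`. -/
def IsMinimal (A B : ℤ) : Prop :=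
  4 * A ^ 3 + 27 * B ^ 2 ≠ 0 ∧ ∀ p : ℕ, p.Prime → ¬ ((p : ℤ) ^ 4 ∣ A ∧ (p : ℤ) ^ 6 ∣ B)

/-- The pairs `(A, B)` of the family with `max (4 |A|³) (27 B²) ≤ X`. -/
noncomputable def curves (X : ℕ) : Finset (ℤ × ℤ) :=
  (Icc (-(X : ℤ)) X ×ˢ Icc (-(X : ℤ)) X).filter fun q =>
    max (4 * |q.1| ^ 3) (27 * q.2 ^ 2) ≤ (X : ℤ) ∧ IsMinimal q.1 q.2

/-- `a_p`, the number `p` minus the number of affine points of `y² = x³ + A x + B` modulo `p`. -/
noncomputable def trace (A B : ℤ) (p : ℕ) : ℝ :=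
  (p : ℝ) - Nat.card {q : ZMod p × ZMod p // q.2 ^ 2 = q.1 ^ 3 + (A : ZMod p) * q.1 + (B : ZMod p)}

/-- `p` is a prime which does not divide `2 Δ`, `Δ = -4 A³ - 27 B²`. -/
def Good (A B : ℤ) (p : ℕ) : Prop := p.Prime ∧ ¬ ((p : ℤ) ∣ 2 * (-4 * A ^ 3 - 27 * B ^ 2))

variable {F : Type} [Field F] [NumberField F] {n : ℕ}

/-- `g` is a Frobenius element at the prime `p`: for a homomorphism `φ` from the ring of integers to an
algebraic closure of `𝔽_p` (i.e. for a prime ideal above `p`), `φ (g x) = φ(x)^p`. -/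
def IsFrobenius (p : ℕ) (g : Gal(F/ℚ)) : Prop :=
  ∃ (_ : Fact p.Prime) (φ : 𝓞 F →+* AlgebraicClosure (ZMod p)), ∀ x : 𝓞 F, φ (g • x) = φ x ^ p

/-- The local factor `det (1 - (a_p / p) ρ(g) + (1 / p) ρ(g)²)`, the value at `s = 1`. -/
noncomputable def factor (ρ : Gal(F/ℚ) →* Matrix (Fin n) (Fin n) ℂ) (A B : ℤ) (p : ℕ) (g : Gal(F/ℚ)) : ℂ :=
  (1 - ((trace A B p / p : ℝ) : ℂ) • ρ g + ((1 / (p : ℝ) : ℝ) : ℂ) • ρ g ^ 2).det

/-- The product over the good primes `25 ≤ p ≤ x` not in `S`; `σ p` a Frobenius element. -/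
noncomputable def product (ρ : Gal(F/ℚ) →* Matrix (Fin n) (Fin n) ℂ) (σ : ℕ → Gal(F/ℚ)) (S : Finset ℕ)
    (A B : ℤ) (x : ℕ) : ℝ :=
  ∏ p ∈ (range (x + 1)).filter (fun p => Good A B p ∧ 25 ≤ p ∧ p ∉ S), ‖factor ρ A B p (σ p)‖

/-- The exponent `m` for which the product up to `x` is `(log x) ^ m`. -/
noncomputable def multiplicityAt (ρ : Gal(F/ℚ) →* Matrix (Fin n) (Fin n) ℂ) (σ : ℕ → Gal(F/ℚ))
    (S : Finset ℕ) (A B : ℤ) (x : ℕ) : ℝ :=
  Real.log (product ρ σ S A B x) / Real.log (Real.log x)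

/-- The indicator of Frobenius and Schur, the mean value of `tr ρ(g²)` (a real number; we take the real
part). -/
noncomputable def indicator (ρ : Gal(F/ℚ) →* Matrix (Fin n) (Fin n) ℂ) : ℝ :=
  (∑ g : Gal(F/ℚ), (ρ (g ^ 2)).trace.re) / Nat.card Gal(F/ℚ)

/-- `curves X` has no other members than the pairs of the family of height at most `X`. -/
theorem mem_curves (X : ℕ) (A B : ℤ) :
    (A, B) ∈ curves X ↔ max (4 * |A| ^ 3) (27 * B ^ 2) ≤ (X : ℤ) ∧ IsMinimal A B := by
  unfold curves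
  rw [mem_filter]
  simp only [mem_product, mem_Icc, and_iff_right_iff_imp]
  rintro ⟨h, _⟩
  have h1 := (le_max_left _ _).trans h
  have h2 := (le_max_right _ _).trans h
  have hA : |A| ≤ (X : ℤ) := by
    rcases eq_or_ne A 0 with rfl | h0
    · simp
    · have h3 : 1 ≤ |A| := Int.one_le_abs h0
      nlinarith [mul_nonneg (sub_nonneg.2 h3) (abs_nonneg A), pow_nonneg (abs_nonneg A) 3,
        mul_nonneg (mul_nonneg (sub_nonneg.2 h3) (abs_nonneg A)) (abs_nonneg A)]
  have hB : |B| ≤ (X : ℤ) := by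
    rcases eq_or_ne B 0 with rfl | h0
    · simp
    · have h3 : 1 ≤ |B| := Int.one_le_abs h0
      have h4 : B ^ 2 = |B| ^ 2 := (sq_abs B).symm
      nlinarith
  rw [abs_le] at hA hB
  exact ⟨hA, hB⟩

/-- **Truncated multiplicities.**  Let `F/ℚ` be a finite Galois extension, `ρ` a representation of its group,
`S` a finite set of primes and `σ p` a Frobenius element at `p` for all primes `p ∉ S`.  (1) For all
`ε, η > 0` there is `X₀` such that for all `X`, with at most `η #𝓕(X)` exceptions all the curves of height at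
most `X` satisfy `|m_ρ(E, x) - ν(ρ)/2| ≤ ε` for all `x ≥ X₀` with `27 x^20 ≤ X`.  (2) For every `ε > 0` there
is `X₀` such that for all `x ≥ X₀` and all `X ≥ 27 x^20` the mean of `|m_ρ(E, x) - ν(ρ)/2|` over the curves
of height at most `X` is at most `ε`. -/
theorem result [IsGalois ℚ F] (ρ : Gal(F/ℚ) →* Matrix (Fin n) (Fin n) ℂ) (σ : ℕ → Gal(F/ℚ))
    (S : Finset ℕ) (hσ : ∀ p : ℕ, p.Prime → p ∉ S → IsFrobenius p (σ p)) :
    (∀ ε η : ℝ, 0 < ε → 0 < η → ∃ X₀ : ℕ, ∀ X : ℕ, ∃ 𝓔 ⊆ curves X, (𝓔.card : ℝ) ≤ η * (curves X).card ∧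
      ∀ q ∈ curves X, q ∉ 𝓔 → ∀ x : ℕ, X₀ ≤ x → 27 * x ^ 20 ≤ X →
        |multiplicityAt ρ σ S q.1 q.2 x - indicator ρ / 2| ≤ ε) ∧
    (∀ ε : ℝ, 0 < ε → ∃ X₀ : ℕ, ∀ X x : ℕ, X₀ ≤ x → 27 * x ^ 20 ≤ X →
      (∑ q ∈ curves X, |multiplicityAt ρ σ S q.1 q.2 x - indicator ρ / 2|) / (curves X).card ≤ ε) := by
  have hFF : ∀ X, curves X = Pool.Agent.Q28.BP.FF X := by
    intro X
    ext ⟨A, B⟩
    unfold curves Pool.Agent.Q28.BP.FF Pool.Agent.Q28.BP.box IsMinimal
    simp only [mem_filter, max_le_iff]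
    tauto
  set S' : Finset ℕ := S ∪ range 25 with hS'
  have hσ' : ∀ p : ℕ, p.Prime → p ∉ S' → Pool.Agent.Q28.BP.FrobAt F p (σ p) := fun p hp hpS =>
    hσ p hp fun h => hpS (mem_union_left _ h)
  have hS25 : ∀ p < 25, p ∈ S' := fun p hp => mem_union_right _ (mem_range.2 hp)
  have hm : Nat.card Gal(F/ℚ) ≠ 0 := Nat.card_pos.ne'
  have hrank : ∀ (A B : ℤ) (x : ℕ), 16 ≤ x → multiplicityAt ρ σ S A B x - indicator ρ / 2 =
      (∑ p ∈ (range (x + 1)).filter Nat.Prime, Pool.Agent.Q28.BP.twf S' (fun p => ρ (σ p)) A B p -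
        Pool.Agent.Q28.BP.fs ρ / 2 * Real.log (Real.log x)) / Real.log (Real.log x) := by
    intro A B x hx
    have hL : Real.log (Real.log x) ≠ 0 := by
      have := Pool.Agent.Q28.BP.loglog_ge_one hx
      linarith
    have h1 : Real.log (product ρ σ S A B x) = ∑ p ∈ (range (x + 1)).filter Nat.Prime,
        Pool.Agent.Q28.BP.twf S' (fun p => ρ (σ p)) A B p := by
      unfold product
      rw [Real.log_prod]
      · rw [sum_filter, sum_filter]
        refine sum_congr rfl fun p _ => ?_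
        unfold Pool.Agent.Q28.BP.twf
        by_cases hg : Good A B p ∧ 25 ≤ p ∧ p ∉ S
        · have hpS : p ∉ S' := by
            rw [hS', mem_union, mem_range, not_or]
            exact ⟨hg.2.2, by omega⟩
          rw [if_pos hg, if_pos hg.1.1, if_pos ⟨hg.1, hpS⟩]
          rfl
        · rw [if_neg hg]
          by_cases hp : p.Prime
          · rw [if_pos hp, if_neg]
            rintro ⟨h2, h3⟩
            rw [hS', mem_union, mem_range, not_or] at h3
            exact hg ⟨h2, by omega, h3.1⟩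
          · rw [if_neg hp]
      · intro p hp
        obtain ⟨_, hg, h25, _⟩ := mem_filter.1 hp
        have hH := Pool.Agent.W263.BSD.hasse hg (by omega)
        exact (Pool.Agent.Q28.BP.local_factor (ρ (σ p)) hm (by rw [← map_pow, pow_card_eq_one', map_one])
          (by exact_mod_cast h25) hH).1.ne'
    unfold multiplicityAt
    rw [h1, sub_div, mul_div_assoc, div_self hL, mul_one]
    rfl
  constructor
  · intro ε η hε hη
    obtain ⟨X₀, hX₀, H⟩ := Pool.Agent.Q28.BP.artin_all ρ σ S' hσ' hS25 hε hη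
    refine ⟨X₀, fun X => ?_⟩
    obtain ⟨E, hE, hEc, HE⟩ := H X
    rw [← hFF] at hE hEc HE
    refine ⟨E, hE, hEc, fun q hq hne x hx hxX => ?_⟩
    have hl : 0 < Real.log (Real.log x) := by
      have := Pool.Agent.Q28.BP.loglog_ge_one (hX₀.trans hx)
      linarith
    have h1 := HE q hq hne x hx hxX
    rw [hrank _ _ _ (hX₀.trans hx), abs_div, abs_of_pos hl, div_le_iff₀ hl]
    exact h1
  · intro ε hε
    obtain ⟨X₀, hX₀, H⟩ := Pool.Agent.Q28.BP.artin_mean ρ σ S' hσ' hS25 hε
    refine ⟨X₀, fun X x hx hxX => ?_⟩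
    have hl : 0 < Real.log (Real.log x) := by
      have := Pool.Agent.Q28.BP.loglog_ge_one (hX₀.trans hx)
      linarith
    have h1 := H X x hx hxX
    rw [← hFF] at h1
    have h2 : ∑ q ∈ curves X, |multiplicityAt ρ σ S q.1 q.2 x - indicator ρ / 2| = (∑ q ∈ curves X,
        |∑ p ∈ (range (x + 1)).filter Nat.Prime, Pool.Agent.Q28.BP.twf S' (fun p => ρ (σ p)) q.1 q.2 p -
          Pool.Agent.Q28.BP.fs ρ / 2 * Real.log (Real.log x)|) / Real.log (Real.log x) := by
      rw [sum_div]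
      refine sum_congr rfl fun q _ => ?_
      rw [hrank _ _ _ (hX₀.trans hx), abs_div, abs_of_pos hl]
    rw [h2]
    rcases Nat.eq_zero_or_pos (curves X).card with h0 | h0
    · rw [h0]
      simp only [Nat.cast_zero, div_zero]
      exact hε.le
    · have h3 : (0 : ℝ) < (curves X).card := by exact_mod_cast h0
      rw [div_le_iff₀ h3, div_le_iff₀ hl]
      refine h1.trans (le_of_eq ?_)
      ring

end Pool.Agent.Results.MP_775b3b_nt.TruncatedMultiplicities
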